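import Pool.Agent.H30.SY.Stm

/-!
# Project SY, module FUB: symmetrisation (helper10 for helper30)
-/

set_option autoImplicit false

open MeasureTheory ProbabilityTheory Finset Filter
open scoped Topology Pointwise

namespace Pool.Agent.H10.SY

open Q70.Fp Pool.Agent.H30.SY

/-- functions of disjoint sets of edges are independent -/
theorem indep {f g : (Ed → ℝ) → ℝ} (S T : Finset Ed) (hST : Disjoint S T)
    (hf : Measurable f) (hg : Measurable g)
    (hfS : ∀ w w', (∀ e ∈ S, w e = w' e) → f w = f w')
    (hgT : ∀ w w', (∀ e ∈ T, w e = w' e) → g w = g w') : IndepFun f g nu := by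
  have hind : iIndepFun (fun (e : Ed) (w : Ed → ℝ) => w e) nu :=
    iIndepFun_infinitePi (P := fun _ => expMeasure 1) (X := fun _ x => x) (fun _ => measurable_id)
  have h1 := hind.indepFun_finset S T hST (fun e => measurable_pi_apply e)
  let ext (U : Finset Ed) : (U → ℝ) → (Ed → ℝ) := fun u e => if h : e ∈ U then u ⟨e, h⟩ else 0
  have hext : ∀ U, Measurable (ext U) := by
    intro U
    refine measurable_pi_iff.2 fun e => ?_
    by_cases h : e ∈ U
    · simp only [ext, h, dif_pos]; exact measurable_pi_apply _
    · simp only [ext, h, dif_neg, not_false_eq_true]; exact measurable_const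
  have h2 := h1.comp (hf.comp (hext S)) (hg.comp (hext T))
  have e1 : (f ∘ ext S) ∘ (fun (a : Ed → ℝ) (i : S) => a i) = f := by
    funext w
    refine hfS _ _ fun e he => ?_
    simp [ext, he]
  have e2 : (g ∘ ext T) ∘ (fun (a : Ed → ℝ) (i : T) => a i) = g := by
    funext w
    refine hgT _ _ fun e he => ?_
    simp [ext, he]
  rw [e1, e2] at h2
  exact h2

/-- MODULE FUB -/
theorem t_FUB : S_FUB := by
  intro S T f g hST hf hg hfS hgT s
  have hind := indep S T hST hf hg hfS hgT
  have hmap := (indepFun_iff_map_prod_eq_prod_map_map hf.aemeasurable hg.aemeasurable).1 hind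
  have hpg : IsProbabilityMeasure (nu.map g) := Measure.isProbabilityMeasure_map hg.aemeasurable
  have hpf : IsProbabilityMeasure (nu.map f) := Measure.isProbabilityMeasure_map hf.aemeasurable
  set A : Set (ℝ × ℝ) := {p | s < |p.1 - p.2|} with hA
  have hAm : MeasurableSet A := by
    refine measurableSet_lt measurable_const ?_
    exact (measurable_fst.sub measurable_snd).abs
  have h1 : nu {w | s < |f w - g w|} = ∫⁻ y, (nu.map f) ((fun x => (x, y)) ⁻¹' A) ∂(nu.map g) := by
    rw [← Measure.prod_apply_symm hAm, ← hmap, Measure.map_apply (hf.prodMk hg) hAm]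
    rfl
  obtain ⟨c, hc⟩ := exists_le_lintegral (μ := nu.map g)
    (f := fun y => (nu.map f) ((fun x => (x, y)) ⁻¹' A)) (measurable_measure_prodMk_right hAm).aemeasurable
  refine ⟨c, ?_⟩
  have h2 : nu {w | s < |f w - c|} = (nu.map f) ((fun x => (x, c)) ⁻¹' A) := by
    rw [Measure.map_apply hf (measurable_prodMk_right hAm)]
    rfl
  have h3 : nu {w | s < |f w - c|} ≤ nu {w | s < |f w - g w|} := by
    rw [h1, h2]
    exact hc
  exact ENNReal.toReal_mono (measure_ne_top _ _) h3

end Pool.Agent.H10.SY
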