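import Pool.Agent.H30.SY.Stm2

/-!
# Project SY, module SYM2: symmetric clusters give concentration (helper10 for helper30)
-/

set_option autoImplicit false

open MeasureTheory ProbabilityTheory Finset Filter
open scoped Topology Pointwise

namespace Pool.Agent.H10.SY

open Q70.Fp Pool.Agent.H30.SY

/-- the two chains -/
theorem two_sides (hSETC : S_SETC) (hONE : S_ONE) {n R : ℕ} {v : ℤ × ℤ} {c a' P : ℝ}
    (hv : dd 0 v = n) (hn : 1000 ≤ n) (hR1 : 1 ≤ R) (hR : 402 * (R : ℝ) ≤ n / 50)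
    (ha' : 0 ≤ a') (hR2 : (4 * (n : ℝ)) ^ a' ≤ R)
    (hc1 : 3 * ((n / 66 : ℕ) : ℝ) ≤ c) (hc2 : c ≤ 3 * (n : ℝ))
    (hlow : nu.real {w | TT (pw w) 0 v < c} ≤ 1 / 2) (hup : nu.real {w | c < TT (pw w) 0 v} ≤ 1 / 2)
    (hP : ∀ t : ℝ, (n : ℝ) / 50 ≤ t → nu.real {w : Ed → ℝ | SB (pw w) t (t ^ a')} ≤ P) :
    nu.real {w | 402 * (R : ℝ) < |TT (pw w) 0 v - c|} ≤
      2 * (266 * (P + (2 * (R : ℝ) + 1) ^ 2 * (1 / 2) ^ R) + 18 * (1 / 2) ^ n) := by
  have hv0 : v ≠ 0 := by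
    rintro rfl
    rw [dd_self] at hv
    omega
  have hn' : (1000 : ℝ) ≤ n := by exact_mod_cast hn
  have hR0 : (1 : ℝ) ≤ R := by exact_mod_cast hR1
  have h66 : ((n : ℝ) - 65) / 22 ≤ c := by
    have h1 : n ≤ 66 * (n / 66) + 65 := by omega
    have h2 : (n : ℝ) ≤ 66 * ((n / 66 : ℕ) : ℝ) + 65 := by exact_mod_cast h1
    linarith
  set Q : ℝ := P + (2 * (R : ℝ) + 1) ^ 2 * (1 / 2) ^ R with hQ
  -- one step at a time
  have hstep : ∀ (u : ℤ × ℤ) (t : ℝ), (n : ℝ) / 50 ≤ t → t ≤ 4 * n →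
      nu.real {w | TT (pw w) 0 (-u) ≤ t ∧ t + 3 * (R : ℝ) < TT (pw w) 0 u} ≤ Q := by
    intro u t ht1 ht2
    have ht0 : 0 ≤ t := by linarith
    have h1 : t ^ a' ≤ R := (Real.rpow_le_rpow ht0 ht2 ha').trans hR2
    exact (hONE u t (t ^ a') R h1).trans (add_le_add (hP t ht1) le_rfl)
  have hL : nu.real {w | TT (pw w) 0 v ∈ Set.Iic (c - 402 * (R : ℝ))} ≤
      266 * Q + 18 * (1 / 2) ^ n := by
    have h := hSETC v hv0 (fun i => Set.Iic (c - (134 - (i : ℝ)) * (3 * R)))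
      (fun i => measurableSet_Iic) Q ?_ ?_
    · rw [hv] at h
      have e : c - (134 - ((0 : ℕ) : ℝ)) * (3 * (R : ℝ)) = c - 402 * R := by push_cast; ring
      rw [e] at h
      exact h
    · intro i hi
      have hi' : (i : ℝ) ≤ 133 := by exact_mod_cast hi.le
      have hi0 : (0 : ℝ) ≤ i := Nat.cast_nonneg i
      refine (measureReal_mono ?_ (measure_ne_top _ _)).trans
        (hstep v (c - (134 - (i : ℝ)) * (3 * R)) ?_ ?_)
      · rintro w ⟨h1, h2⟩
        simp only [Set.mem_Iic, not_le] at h1 h2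
        refine ⟨h1, ?_⟩
        push_cast at h2
        linarith
      · nlinarith
      · nlinarith
    · refine (measureReal_mono ?_ (measure_ne_top _ _)).trans hlow
      intro w hw
      have hw' : TT (pw w) 0 v ≤ c - (134 - ((133 : ℕ) : ℝ)) * (3 * R) := hw
      push_cast at hw'
      change TT (pw w) 0 v < c
      linarith
  have hU : nu.real {w | TT (pw w) 0 v ∈ Set.Ioi (c + 402 * (R : ℝ))} ≤
      266 * Q + 18 * (1 / 2) ^ n := by
    have h := hSETC v hv0 (fun i => Set.Ioi (c + (134 - (i : ℝ)) * (3 * R)))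
      (fun i => measurableSet_Ioi) Q ?_ ?_
    · rw [hv] at h
      have e : c + (134 - ((0 : ℕ) : ℝ)) * (3 * (R : ℝ)) = c + 402 * R := by push_cast; ring
      rw [e] at h
      exact h
    · intro i hi
      have hi' : (i : ℝ) ≤ 133 := by
        have : i ≤ 133 := hi.le
        exact_mod_cast this
      have hi2 : (i : ℝ) + 1 ≤ 133 := by exact_mod_cast hi
      have hi0 : (0 : ℝ) ≤ i := Nat.cast_nonneg i
      refine (measureReal_mono ?_ (measure_ne_top _ _)).trans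
        (hstep (-v) (c + (134 - ((i : ℝ) + 1)) * (3 * R)) ?_ ?_)
      · rintro w ⟨h1, h2⟩
        simp only [Set.mem_Ioi, not_lt] at h1 h2
        push_cast at h2
        refine ⟨?_, ?_⟩
        · rw [neg_neg]
          exact h2
        · linarith
      · nlinarith
      · nlinarith
    · refine (measureReal_mono ?_ (measure_ne_top _ _)).trans hup
      intro w hw
      have hw' : c + (134 - ((133 : ℕ) : ℝ)) * (3 * R) < TT (pw w) 0 v := hw
      push_cast at hw'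
      change c < TT (pw w) 0 v
      linarith
  have hsub : {w | 402 * (R : ℝ) < |TT (pw w) 0 v - c|} ⊆
      {w | TT (pw w) 0 v ∈ Set.Iic (c - 402 * (R : ℝ))} ∪
        {w | TT (pw w) 0 v ∈ Set.Ioi (c + 402 * (R : ℝ))} := by
    intro w hw
    have hw' : 402 * (R : ℝ) < |TT (pw w) 0 v - c| := hw
    rcases lt_abs.1 hw' with h | h
    · right
      change c + 402 * (R : ℝ) < TT (pw w) 0 v
      linarith
    · left
      change TT (pw w) 0 v ≤ c - 402 * (R : ℝ)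
      linarith
  refine (measureReal_mono hsub (measure_ne_top _ _)).trans ((measureReal_union_le _ _).trans ?_)
  linarith

/-- the main estimate -/
theorem main2 (hSETC : S_SETC) (hONE : S_ONE) (hMED : S_MED) {b z : ℝ} (hb : 0 < b) (hb1 : b < 1)
    (hz : 0 < z) (hz1 : z ≤ (1 - b) / 2) (hS : Sy2 b) :
    ∃ (m : ℤ × ℤ → ℝ) (C : ℝ), 0 < C ∧ ∀ᶠ n : ℕ in atTop, ∀ v : ℤ × ℤ, dd 0 v = n →
      nu.real {w : Ed → ℝ | (n : ℝ) ^ (b + z) < |TT (pw w) 0 v - m v|} ≤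
        C * (n : ℝ) ^ (-(2 * (1 - b) - z)) := by
  classical
  obtain ⟨C1, h1⟩ := hS (z / 3) (by linarith) (by linarith)
  obtain ⟨t0, ht0⟩ := eventually_atTop.1 h1
  set q : ℝ := 2 * (1 - b) - z with hq
  have hq0 : 0 < q := by linarith
  set q' : ℝ := 2 * (1 - b) - z / 3 with hq'
  have hq'0 : 0 < q' := by linarith
  have hqq : q ≤ q' := by linarith
  set a : ℝ := b + z with ha
  have ha1 : a < 1 := by linarith
  set a' : ℝ := b + z / 3 with ha'
  have ha'0 : 0 < a' := by linarith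
  have ha'a : a' < a := by linarith
  obtain ⟨C2, hC2, h2⟩ := half_poly q hq0
  obtain ⟨C3, hC3, h3⟩ := half_poly (2 + q / a') (by positivity)
  refine ⟨fun v => if h : 132 ≤ dd 0 v then (hMED v h).choose else 0,
    2 * (266 * (|C1| * 50 ^ q' + 4 * C3) + 18 * C2), by positivity, ?_⟩
  have e1 := pow_small (c := a') (a := a) (K := 402 * 4 ^ a') ha'a
  have e2 := pow_small (c := 0) (a := a) (K := 402) (by linarith)
  have e3 := pow_small (c := a') (a := 1) (K := 402 * 50 * 4 ^ a') (by linarith)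
  have e4 := pow_small (c := 0) (a := 1) (K := 402 * 50) (by norm_num)
  filter_upwards [e1, e2, e3, e4, eventually_ge_atTop 1000, eventually_ge_atTop ⌈50 * t0⌉₊]
    with n e1 e2 e3 e4 hn hnt v hv
  rw [Real.rpow_zero, mul_one] at e2 e4
  rw [Real.rpow_one] at e3 e4
  have hn' : (1000 : ℝ) ≤ n := by exact_mod_cast hn
  have hn0 : (0 : ℝ) < n := lt_of_lt_of_le (by norm_num) hn'
  have hn1 : (1 : ℝ) ≤ n := le_trans (by norm_num) hn'
  have hnt' : 50 * t0 ≤ n := (Nat.le_ceil _).trans (by exact_mod_cast hnt)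
  have hm : 132 ≤ dd 0 v := by omega
  simp only [dif_pos hm]
  obtain ⟨g1, g2, g3, g4⟩ := (hMED v hm).choose_spec
  set c := (hMED v hm).choose with hc
  rw [hv] at g1 g2
  set R : ℕ := ⌈(4 * (n : ℝ)) ^ a'⌉₊ with hR
  have hX : 0 < (4 * (n : ℝ)) ^ a' := by positivity
  have hR2 : (4 * (n : ℝ)) ^ a' ≤ R := Nat.le_ceil _
  have hR1 : 1 ≤ R := Nat.one_le_iff_ne_zero.2 (Nat.ceil_pos.2 hX).ne'
  have hR3 : (R : ℝ) ≤ 4 ^ a' * (n : ℝ) ^ a' + 1 := by
    rw [← Real.mul_rpow (by norm_num) hn0.le]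
    exact (Nat.ceil_lt_add_one hX.le).le
  have hRa : 402 * (R : ℝ) ≤ (n : ℝ) ^ a := by
    have h5 : 0 < (n : ℝ) ^ a := by positivity
    nlinarith
  have hRb : 402 * (R : ℝ) ≤ n / 50 := by nlinarith
  have hP : ∀ t : ℝ, (n : ℝ) / 50 ≤ t →
      nu.real {w : Ed → ℝ | SB (pw w) t (t ^ a')} ≤ |C1| * ((n : ℝ) / 50) ^ (-q') := by
    intro t ht
    have ht1 : t0 ≤ t := by linarith
    have ht2 : 0 < t := by linarith [show (0 : ℝ) < n / 50 by positivity]
    refine (ht0 t ht1).trans ?_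
    have e : -(2 * (1 - b)) + z / 3 = -q' := by rw [hq']; ring
    rw [e]
    refine (mul_le_mul_of_nonneg_right (le_abs_self C1) (by positivity)).trans ?_
    refine mul_le_mul_of_nonneg_left ?_ (abs_nonneg _)
    exact Real.rpow_le_rpow_of_nonpos (by positivity) ht (by linarith)
  have hT := two_sides hSETC hONE hv hn hR1 hRb ha'0.le hR2 g1 g2 g3 g4 hP
  have hsub : {w : Ed → ℝ | (n : ℝ) ^ a < |TT (pw w) 0 v - c|} ⊆
      {w | 402 * (R : ℝ) < |TT (pw w) 0 v - c|} := by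
    intro w hw
    exact lt_of_le_of_lt hRa hw
  refine (measureReal_mono hsub (measure_ne_top _ _)).trans (hT.trans ?_)
  have k1 : |C1| * ((n : ℝ) / 50) ^ (-q') ≤ |C1| * 50 ^ q' * (n : ℝ) ^ (-q) := by
    have h5 : ((n : ℝ) / 50) ^ (-q') = 50 ^ q' * (n : ℝ) ^ (-q') := by
      rw [Real.div_rpow hn0.le (by norm_num), Real.rpow_neg (by norm_num : (0:ℝ) ≤ 50)]
      field_simp
    rw [h5, ← mul_assoc]
    refine mul_le_mul_of_nonneg_left ?_ (by positivity)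
    exact Real.rpow_le_rpow_of_exponent_le hn1 (by linarith)
  have k2 : (2 * (R : ℝ) + 1) ^ 2 * (1 / 2) ^ R ≤ 4 * C3 * (n : ℝ) ^ (-q) := by
    have h5 := h3 R
    have hRp : (0 : ℝ) < (R : ℝ) + 1 := by positivity
    have h6 : ((R : ℝ) + 1) ^ (-(2 + q / a')) = ((R : ℝ) + 1) ^ (-(2 : ℝ)) * ((R : ℝ) + 1) ^ (-(q / a')) := by
      rw [← Real.rpow_add hRp]
      congr 1
      ring
    have h7 : ((R : ℝ) + 1) ^ (-(q / a')) ≤ (n : ℝ) ^ (-q) := by
      have h8 : (4 * (n : ℝ)) ^ a' ≤ (R : ℝ) + 1 := by linarith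
      calc ((R : ℝ) + 1) ^ (-(q / a')) ≤ ((4 * (n : ℝ)) ^ a') ^ (-(q / a')) :=
            Real.rpow_le_rpow_of_nonpos hX h8 (by have : 0 < q / a' := by positivity
                                                  linarith)
        _ = (4 * (n : ℝ)) ^ (-q) := by
            rw [← Real.rpow_mul (by positivity)]
            congr 1
            field_simp
        _ ≤ (n : ℝ) ^ (-q) := Real.rpow_le_rpow_of_nonpos hn0 (by linarith) (by linarith)
    have h9 : (2 * (R : ℝ) + 1) ^ 2 ≤ 4 * ((R : ℝ) + 1) ^ 2 := by nlinarith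
    have h10 : ((R : ℝ) + 1) ^ 2 * ((R : ℝ) + 1) ^ (-(2 : ℝ)) = 1 := by
      rw [Real.rpow_neg hRp.le]
      have : ((R : ℝ) + 1) ^ (2 : ℝ) = ((R : ℝ) + 1) ^ 2 := by
        rw [← Real.rpow_natCast]
        norm_num
      rw [this]
      field_simp
    calc (2 * (R : ℝ) + 1) ^ 2 * (1 / 2) ^ R ≤
          4 * ((R : ℝ) + 1) ^ 2 * (C3 * ((R : ℝ) + 1) ^ (-(2 + q / a'))) :=
          mul_le_mul h9 h5 (by positivity) (by positivity)
      _ = 4 * C3 * (((R : ℝ) + 1) ^ 2 * ((R : ℝ) + 1) ^ (-(2 : ℝ))) * ((R : ℝ) + 1) ^ (-(q / a')) := by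
          rw [h6]
          ring
      _ = 4 * C3 * ((R : ℝ) + 1) ^ (-(q / a')) := by rw [h10, mul_one]
      _ ≤ 4 * C3 * (n : ℝ) ^ (-q) := mul_le_mul_of_nonneg_left h7 (by positivity)
  have k3 : (1 / 2 : ℝ) ^ n ≤ C2 * (n : ℝ) ^ (-q) := by
    refine (h2 n).trans (mul_le_mul_of_nonneg_left ?_ hC2.le)
    exact Real.rpow_le_rpow_of_nonpos hn0 (by linarith) (by linarith)
  have hfin : 2 * (266 * (|C1| * ((n : ℝ) / 50) ^ (-q') + (2 * (R : ℝ) + 1) ^ 2 * (1 / 2) ^ R) +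
      18 * (1 / 2) ^ n) ≤ 2 * (266 * (|C1| * 50 ^ q' * (n : ℝ) ^ (-q) + 4 * C3 * (n : ℝ) ^ (-q)) +
      18 * (C2 * (n : ℝ) ^ (-q))) := by linarith
  refine hfin.trans (le_of_eq ?_)
  ring

/-- MODULE SYM2 -/
theorem t_SYM2 (hSETC : S_SETC) (hONE : S_ONE) (hMED : S_MED) : S_SYM2 := by
  intro b hb hb1 hS ζ hζ
  set z : ℝ := min ζ ((1 - b) / 2) with hz
  have hz0 : 0 < z := lt_min hζ (by linarith)
  have hz1 : z ≤ (1 - b) / 2 := min_le_right _ _
  have hzζ : z ≤ ζ := min_le_left _ _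
  obtain ⟨m, C, hC, h⟩ := main2 hSETC hONE hMED hb hb1 hz0 hz1 hS
  have hP : ∀ v : ℤ × ℤ, nu.real {w : Ed → ℝ | (dd 0 v : ℝ) ^ (b + z) < |TT (pw w) 0 v - m v|} ≤ 1 :=
    fun v => measureReal_le_one
  obtain ⟨C', hC', h'⟩ := of_ev (P := fun v => nu.real {w : Ed → ℝ | (dd 0 v : ℝ) ^ (b + z) <
    |TT (pw w) 0 v - m v|}) hP (q := 2 * (1 - b) - z) (by linarith) hC (by
      filter_upwards [h] with n hn v hv
      rw [hv]
      exact hn v hv)
  refine ⟨m, C', fun v hv => ?_⟩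
  have hd : (1 : ℝ) ≤ dd 0 v := by exact_mod_cast dd_pos hv
  have hsub : {w : Ed → ℝ | (dd 0 v : ℝ) ^ (b + ζ) < |TT (pw w) 0 v - m v|} ⊆
      {w | (dd 0 v : ℝ) ^ (b + z) < |TT (pw w) 0 v - m v|} := by
    intro w hw
    exact lt_of_le_of_lt (Real.rpow_le_rpow_of_exponent_le hd (by linarith)) hw
  refine (measureReal_mono hsub (measure_ne_top _ _)).trans ((h' v hv).trans ?_)
  refine mul_le_mul_of_nonneg_left ?_ hC'.le
  exact Real.rpow_le_rpow_of_exponent_le hd (by linarith)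

end Pool.Agent.H10.SY
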